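import Mathlib

/-!
# The upper broadcast number is not monotone under isometric subgraphs
-/

set_option autoImplicit false

namespace Pool.Agent.Results.MP_3951c0_co.Isometric

open SimpleGraph Finset

/-- The eccentricity of a vertex of a finite graph. -/
noncomputable def ecc {V : Type} [Fintype V] (G : SimpleGraph V) (v : V) : ℕ :=
  univ.sup fun u => G.dist u v

/-- `f` is a broadcast. -/
def IsBroadcast {V : Type} [Fintype V] (G : SimpleGraph V) (f : V → ℕ) : Prop :=
  ∀ v, f v ≤ ecc G v

/-- Every vertex `u` hears `f` from some vertex `v`. -/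
def IsDominating {V : Type} (G : SimpleGraph V) (f : V → ℕ) : Prop :=
  ∀ u, ∃ v, 0 < f v ∧ G.dist u v ≤ f v

/-- `f` is a minimal dominating broadcast. -/
def IsMinDominating {V : Type} [Fintype V] (G : SimpleGraph V) (f : V → ℕ) : Prop :=
  IsBroadcast G f ∧ IsDominating G f ∧
    ∀ g : V → ℕ, IsBroadcast G g → g ≠ f → (∀ v, g v ≤ f v) → ¬ IsDominating G g

/-- The upper broadcast number `Γ_b(G)`. -/
noncomputable def upperBroadcastNum {V : Type} [Fintype V] (G : SimpleGraph V) : ℕ :=
  sSup {k | ∃ f : V → ℕ, IsMinDominating G f ∧ ∑ v, f v = k}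

/-- `φ` embeds `G` as an isometric subgraph of `H`. -/
def IsIsometricEmbedding {V W : Type} (G : SimpleGraph V) (H : SimpleGraph W) (φ : V ↪ W) :
    Prop :=
  ∀ u v, G.dist u v = H.dist (φ u) (φ v)

/-! ### The two graphs -/

/-- The prism over the complete graph `K_n`. -/
def gG (n : ℕ) : SimpleGraph (Fin n × Bool) where
  Adj x y := (x.2 = y.2 ∧ x.1 ≠ y.1) ∨ (x.2 ≠ y.2 ∧ x.1 = y.1)
  symm := ⟨by
    rintro x y (⟨h1, h2⟩ | ⟨h1, h2⟩)
    · exact Or.inl ⟨h1.symm, h2.symm⟩
    · exact Or.inr ⟨h1.symm, h2.symm⟩⟩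
  loopless := ⟨by
    rintro x (⟨_, h⟩ | ⟨h, _⟩) <;> exact h rfl⟩

/-- The prism over `K_{n+1}` without one of its rungs. -/
def gH (n : ℕ) : SimpleGraph (Option (Fin n) × Bool) where
  Adj x y := (x.2 = y.2 ∧ x.1 ≠ y.1) ∨ (x.2 ≠ y.2 ∧ x.1 = y.1 ∧ x.1 ≠ none)
  symm := ⟨by
    rintro x y (⟨h1, h2⟩ | ⟨h1, h2, h3⟩)
    · exact Or.inl ⟨h1.symm, h2.symm⟩
    · exact Or.inr ⟨h1.symm, h2.symm, h2 ▸ h3⟩⟩
  loopless := ⟨by
    rintro x (⟨_, h⟩ | ⟨h, _⟩) <;> exact h rfl⟩

/-- the embedding -/
def emb (n : ℕ) : Fin n × Bool ↪ Option (Fin n) × Bool :=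
  ⟨fun x => (some x.1, x.2), by
    rintro ⟨i, a⟩ ⟨j, b⟩ h
    simpa using h⟩

lemma dist_le_one {V : Type} {G : SimpleGraph V} {u v : V} (h : G.Adj u v) : G.dist u v ≤ 1 :=
  (dist_eq_one_iff_adj.2 h).le

/-- distances on the same side -/
lemma gG_side {n : ℕ} (i j : Fin n) (a : Bool) : (gG n).dist (i, a) (j, a) ≤ 1 := by
  by_cases h : i = j
  · rw [h, SimpleGraph.dist_self]; omega
  · exact dist_le_one (Or.inl ⟨rfl, h⟩)

lemma gH_side {n : ℕ} (i j : Option (Fin n)) (a : Bool) : (gH n).dist (i, a) (j, a) ≤ 1 := by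
  by_cases h : i = j
  · rw [h, SimpleGraph.dist_self]; omega
  · exact dist_le_one (Or.inl ⟨rfl, h⟩)

lemma gG_reach {n : ℕ} (x y : Fin n × Bool) : (gG n).Reachable x y := by
  obtain ⟨i, a⟩ := x
  obtain ⟨j, b⟩ := y
  have h1 : ∀ c, (gG n).Reachable (i, c) (j, c) := by
    intro c
    by_cases h : i = j
    · rw [h]
    · exact Adj.reachable (Or.inl ⟨rfl, h⟩)
  have h2 : (gG n).Reachable (i, a) (i, b) := by
    by_cases h : a = b
    · rw [h]
    · exact Adj.reachable (Or.inr ⟨h, rfl⟩)
  exact h2.trans (h1 b)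

lemma gG_le_two {n : ℕ} (x y : Fin n × Bool) : (gG n).dist x y ≤ 2 := by
  obtain ⟨i, a⟩ := x
  obtain ⟨j, b⟩ := y
  have h1 : (gG n).dist (i, a) (i, b) ≤ 1 := by
    by_cases h : a = b
    · rw [h, SimpleGraph.dist_self]; omega
    · exact dist_le_one (Or.inr ⟨h, rfl⟩)
  have h2 := (gG_reach (i, a) (i, b)).dist_triangle_left (j, b)
  have h3 := gG_side i j b
  omega

lemma gH_reach {n : ℕ} (hn : 0 < n) (x y : Option (Fin n) × Bool) : (gH n).Reachable x y := by
  obtain ⟨i, a⟩ := x
  obtain ⟨j, b⟩ := y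
  have h1 : ∀ i j c, (gH n).Reachable (i, c) (j, c) := by
    intro i j c
    by_cases h : i = j
    · rw [h]
    · exact Adj.reachable (Or.inl ⟨rfl, h⟩)
  have h2 : (gH n).Reachable (some ⟨0, hn⟩, a) (some ⟨0, hn⟩, b) := by
    by_cases h : a = b
    · rw [h]
    · exact Adj.reachable (Or.inr ⟨h, rfl, by simp⟩)
  exact ((h1 i (some ⟨0, hn⟩) a).trans h2).trans (h1 _ j b)

lemma gH_le_two {n : ℕ} (i : Fin n) (a : Bool) (y : Option (Fin n) × Bool) :
    (gH n).dist y (some i, a) ≤ 2 := by
  obtain ⟨j, b⟩ := y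
  have h1 : (gH n).dist (some i, b) (some i, a) ≤ 1 := by
    by_cases h : b = a
    · rw [h, SimpleGraph.dist_self]; omega
    · exact dist_le_one (Or.inr ⟨h, rfl, by simp⟩)
  have h2 := (gH_reach i.pos (j, b) (some i, b)).dist_triangle_left (some i, a)
  have h3 := gH_side j (some i) b
  omega

lemma gH_le_three {n : ℕ} (hn : 0 < n) (x y : Option (Fin n) × Bool) :
    (gH n).dist x y ≤ 3 := by
  obtain ⟨j, b⟩ := y
  have h2 := (gH_reach hn x (some ⟨0, hn⟩, b)).dist_triangle_left (j, b)
  have h3 := gH_side (some ⟨0, hn⟩) j b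
  have h4 := gH_le_two ⟨0, hn⟩ b x
  omega

/-- lower bounds on the distances to the vertices without a rung -/
lemma gH_lower {n : ℕ} (i : Fin n) (a b : Bool) (hab : a ≠ b) :
    2 ≤ (gH n).dist (none, a) (some i, b) := by
  have hr := gH_reach i.pos (none, a) (some i, b)
  have h0 : (gH n).dist (none, a) (some i, b) ≠ 0 := by
    intro h
    have := hr.dist_eq_zero_iff.1 h
    simp at this
  have h1 : (gH n).dist (none, a) (some i, b) ≠ 1 := by
    intro h
    rcases dist_eq_one_iff_adj.1 h with ⟨h2, _⟩ | ⟨_, h2, _⟩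
    · exact hab h2
    · simp at h2
  omega

lemma gH_lower' {n : ℕ} (hn : 0 < n) (a b : Bool) (hab : a ≠ b) :
    3 ≤ (gH n).dist (none, a) (none, b) := by
  have hr := gH_reach hn (none, a) (none, b)
  obtain ⟨p, hp⟩ := hr.exists_walk_length_eq_dist
  rw [← hp]
  cases p with
  | nil => exact absurd rfl hab
  | cons h q =>
    rename_i y
    obtain ⟨j, c⟩ := y
    have h0 := h
    rw [Walk.length_cons]
    rcases h0 with ⟨h1, h2⟩ | ⟨_, _, h2⟩
    · have h1' : a = c := h1
      have h2' : none ≠ j := h2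
      cases j with
      | none => exact absurd rfl h2'
      | some j =>
        have h3 : 2 ≤ (gH n).dist (some j, a) (none, b) := by
          rw [SimpleGraph.dist_comm]
          exact gH_lower j b a hab.symm
        have h4 := dist_le q
        rw [h1'] at h3
        omega
    · exact absurd rfl h2

lemma isometric (n : ℕ) : IsIsometricEmbedding (gG n) (gH n) (emb n) := by
  intro x y
  have hadj : (gG n).Adj x y ↔ (gH n).Adj (emb n x) (emb n y) := by
    change (x.2 = y.2 ∧ x.1 ≠ y.1) ∨ (x.2 ≠ y.2 ∧ x.1 = y.1) ↔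
      (x.2 = y.2 ∧ some x.1 ≠ some y.1) ∨
        (x.2 ≠ y.2 ∧ some x.1 = some y.1 ∧ some x.1 ≠ none)
    simp
  by_cases hxy : x = y
  · rw [hxy, SimpleGraph.dist_self, SimpleGraph.dist_self]
  have hxy' : emb n x ≠ emb n y := fun h => hxy ((emb n).injective h)
  have hG0 := (gG_reach x y).pos_dist_of_ne hxy
  have hH0 := (gH_reach x.1.pos (emb n x) (emb n y)).pos_dist_of_ne hxy'
  have hG2 := gG_le_two x y
  have hH2 : (gH n).dist (emb n x) (emb n y) ≤ 2 := gH_le_two y.1 y.2 (emb n x)
  by_cases h : (gG n).Adj x y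
  · rw [dist_eq_one_iff_adj.2 h, dist_eq_one_iff_adj.2 (hadj.1 h)]
  · have h1 : (gG n).dist x y ≠ 1 := fun h' => h (dist_eq_one_iff_adj.1 h')
    have h2 : (gH n).dist (emb n x) (emb n y) ≠ 1 := fun h' =>
      h (hadj.2 (dist_eq_one_iff_adj.1 h'))
    omega

lemma weight_le {V : Type} [Fintype V] (G : SimpleGraph V) (f : V → ℕ) (hf : IsBroadcast G f) :
    ∑ v, f v ≤ ∑ v, ecc G v := Finset.sum_le_sum fun v _ => hf v

lemma n_le (n : ℕ) : n ≤ upperBroadcastNum (gG n) := by
  apply le_csSup
  · refine ⟨∑ v, ecc (gG n) v, ?_⟩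
    rintro k ⟨f, hf, rfl⟩
    exact weight_le _ f hf.1
  · refine ⟨fun x => if x.2 = false then 1 else 0, ⟨?_, ?_, ?_⟩, ?_⟩
    · rintro ⟨i, a⟩
      by_cases h : a = false
      · subst h
        have h1 : (gG n).dist (i, true) (i, false) = 1 :=
          dist_eq_one_iff_adj.2 (Or.inr ⟨by simp, rfl⟩)
        have h2 : (gG n).dist (i, true) (i, false) ≤ ecc (gG n) (i, false) :=
          Finset.le_sup (f := fun u => (gG n).dist u (i, false)) (Finset.mem_univ (i, true))
        simp only [if_true]
        omega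
      · simp [h]
    · rintro ⟨i, a⟩
      refine ⟨(i, false), by simp, ?_⟩
      by_cases h : a = false
      · subst h
        simp
      · exact dist_le_one (Or.inr ⟨h, rfl⟩)
    · intro g _ hne hle hdom
      apply hne
      funext x
      obtain ⟨i, a⟩ := x
      by_cases h : a = false
      · subst h
        obtain ⟨⟨j, b⟩, hpos, hd⟩ := hdom (i, true)
        have h1 := hle (j, b)
        by_cases hb : b = false
        · subst hb
          simp only [if_true] at h1
          have h2 : (gG n).dist (i, true) (j, false) ≠ 0 := by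
            intro h3
            have := (gG_reach (i, true) (j, false)).dist_eq_zero_iff.1 h3
            simp at this
          have h4 : (gG n).dist (i, true) (j, false) = 1 := by omega
          rcases dist_eq_one_iff_adj.1 h4 with ⟨h5, _⟩ | ⟨_, h5⟩
          · simp at h5
          · simp only at h5
            subst h5
            simp only [if_true]
            omega
        · have hb' : b = true := by simpa using hb
          subst hb'
          simp at h1
          omega
      · have h1 := hle (i, a)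
        simp only [h] at h1 ⊢
        simpa using h1
    · rw [Fintype.sum_prod_type]
      simp

lemma sum_le_of_min {V : Type} [Fintype V] [DecidableEq V] {G : SimpleGraph V} {f : V → ℕ}
    (hf : IsMinDominating G f) (g : V → ℕ) (hle : ∀ v, g v ≤ f v) (hg : IsDominating G g) :
    g = f := by
  by_contra hne
  exact hf.2.2 g (fun v => (hle v).trans (hf.1 v)) hne hle hg

lemma upper_H {n : ℕ} (hn : 0 < n) : upperBroadcastNum (gH n) ≤ 3 := by
  classical
  unfold upperBroadcastNum
  rcases Set.eq_empty_or_nonempty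
    {k | ∃ f : Option (Fin n) × Bool → ℕ, IsMinDominating (gH n) f ∧ ∑ v, f v = k} with h | h
  · rw [h]
    simp
  apply csSup_le h
  rintro k ⟨f, hf, rfl⟩
  by_cases hA : ∃ i : Fin n, ∃ a, 2 ≤ f (some i, a)
  · obtain ⟨i, a, hi⟩ := hA
    have h1 : Pi.single (some i, a) 2 = f := by
      apply sum_le_of_min hf
      · intro v
        by_cases hv : v = (some i, a)
        · rw [hv, Pi.single_eq_same]; exact hi
        · rw [Pi.single_eq_of_ne hv]; exact Nat.zero_le _
      · intro u
        refine ⟨(some i, a), by simp, ?_⟩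
        rw [Pi.single_eq_same]
        exact gH_le_two i a u
    rw [← h1, Finset.sum_pi_single']
    simp
  by_cases hB : ∃ a, 3 ≤ f (none, a)
  · obtain ⟨a, hi⟩ := hB
    have h1 : Pi.single (none, a) 3 = f := by
      apply sum_le_of_min hf
      · intro v
        by_cases hv : v = (none, a)
        · rw [hv, Pi.single_eq_same]; exact hi
        · rw [Pi.single_eq_of_ne hv]; exact Nat.zero_le _
      · intro u
        refine ⟨(none, a), by simp, ?_⟩
        rw [Pi.single_eq_same]
        exact gH_le_three hn u _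
    rw [← h1, Finset.sum_pi_single']
    simp
  push Not at hA hB
  have hside : ∀ a, ∃ j, 0 < f (j, a) := by
    intro a
    obtain ⟨⟨j, b⟩, hpos, hd⟩ := hf.2.1 (none, a)
    by_cases hab : a = b
    · subst hab
      exact ⟨j, hpos⟩
    · exfalso
      cases j with
      | none =>
        have h1 := gH_lower' hn a b hab
        have h2 := hB b
        omega
      | some j =>
        have h1 := gH_lower j a b hab
        have h2 := hA j b
        omega
  obtain ⟨j0, h0⟩ := hside false
  obtain ⟨j1, h1⟩ := hside true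
  have h2 : (fun v => (Pi.single (j0, false) 1 : Option (Fin n) × Bool → ℕ) v +
      (Pi.single (j1, true) 1 : Option (Fin n) × Bool → ℕ) v) = f := by
    apply sum_le_of_min hf
    · rintro ⟨i, a⟩
      simp only [Pi.single_apply, Prod.mk.injEq]
      cases a
      · by_cases h : i = j0
        · subst h
          simp
          omega
        · simp [h]
      · by_cases h : i = j1
        · subst h
          simp
          omega
        · simp [h]
    · rintro ⟨i, a⟩
      cases a
      · refine ⟨(j0, false), by simp, ?_⟩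
        simp only [Pi.single_apply, Prod.mk.injEq]
        simpa using gH_side i j0 false
      · refine ⟨(j1, true), by simp, ?_⟩
        simp only [Pi.single_apply, Prod.mk.injEq]
        simpa using gH_side i j1 true
  rw [← h2, Finset.sum_add_distrib, Finset.sum_pi_single', Finset.sum_pi_single']
  simp

/-- For every `n ≥ 1` there are connected graphs `G` and `H` such that `G` is an isometric
subgraph of `H`, `Γ_b(G) ≥ n` and `Γ_b(H) ≤ 3`. -/
theorem result (n : ℕ) (hn : 0 < n) :
    ∃ (V W : Type) (_ : Fintype V) (_ : Fintype W) (G : SimpleGraph V) (H : SimpleGraph W)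
      (φ : V ↪ W), G.Connected ∧ H.Connected ∧ IsIsometricEmbedding G H φ ∧
        n ≤ upperBroadcastNum G ∧ upperBroadcastNum H ≤ 3 := by
  refine ⟨Fin n × Bool, Option (Fin n) × Bool, inferInstance, inferInstance, gG n, gH n, emb n,
    ?_, ?_, isometric n, n_le n, upper_H hn⟩
  · rw [connected_iff]
    exact ⟨fun x y => gG_reach x y, ⟨⟨⟨0, hn⟩, true⟩⟩⟩
  · rw [connected_iff]
    exact ⟨fun x y => gH_reach hn x y, ⟨⟨none, true⟩⟩⟩

end Pool.Agent.Results.MP_3951c0_co.Isometric
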